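import Mathlib

/-!
# Fault cost (MP_54aac5_co): definitions and general lemmas

General definitions (spanning subgraphs are graphs `S ≤ G` on the same vertex set), the path
tree of an enumeration of the vertices, and the two-leaf bound for trees.
-/

namespace Pool.Agent.R891.FC

open SimpleGraph

variable {V : Type}

/-- `G - v`: the graph induced by `G` on the vertices other than `v`. -/
def del (G : SimpleGraph V) (v : V) : SimpleGraph {w : V // w ≠ v} := G.comap Subtype.val

/-- The degree of `w` in `S`. -/
noncomputable def deg (S : SimpleGraph V) (w : V) : ℕ := (S.neighborSet w).ncard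

/-- The number of leaves (vertices of degree 1) of `S`. -/
noncomputable def leaves (S : SimpleGraph V) : ℕ := {w : V | deg S w = 1}.ncard

/-- `S` is a hamiltonian cycle of `G`: a connected spanning subgraph with all degrees 2. -/
def IsHamCycle (G S : SimpleGraph V) : Prop := S ≤ G ∧ S.Connected ∧ ∀ w, deg S w = 2

/-- `G` is hamiltonian. -/
def Ham (G : SimpleGraph V) : Prop := ∃ S, IsHamCycle G S

/-- `S` is a spanning tree of `G`. -/
def IsSpanTree (G S : SimpleGraph V) : Prop := S ≤ G ∧ S.IsTree

open Classical in
/-- The minimum leaf number of `G`: `1` if `G` is hamiltonian, and otherwise the least number of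
leaves of a spanning tree. -/
noncomputable def ml (G : SimpleGraph V) : ℕ :=
  if Ham G then 1 else sInf {k | ∃ S, IsSpanTree G S ∧ leaves S = k}

/-- `S` is an ml-subgraph of `G`: a hamiltonian cycle if `G` is hamiltonian, and otherwise a
spanning tree with exactly `ml G` leaves. -/
def IsMl (G S : SimpleGraph V) : Prop :=
  (Ham G ∧ IsHamCycle G S) ∨ (¬ Ham G ∧ IsSpanTree G S ∧ leaves S = ml G)

/-- The transition cost: the number of vertices `w ≠ v` whose degrees in `S` and `T` differ. -/
noncomputable def tau (S : SimpleGraph V) (v : V) (T : SimpleGraph {w : V // w ≠ v}) : ℕ :=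
  {w : {w : V // w ≠ v} | deg S w.1 ≠ deg T w}.ncard

/-- `φ_S(G)`, the maximum over `v` of the minimum of the transition costs from `S` to an
ml-subgraph of `G - v`. -/
noncomputable def phiS [Fintype V] (G S : SimpleGraph V) : ℕ :=
  Finset.univ.sup fun v : V => sInf {k | ∃ T, IsMl (del G v) T ∧ tau S v T = k}

/-- The fault cost `φ(G)`, the minimum of `φ_S(G)` over the ml-subgraphs `S` of `G`. -/
noncomputable def phi [Fintype V] (G : SimpleGraph V) : ℕ :=
  sInf {k | ∃ S, IsMl G S ∧ phiS G S = k}

lemma deg_eq_degree [Fintype V] [DecidableEq V] (S : SimpleGraph V) [DecidableRel S.Adj] (w : V) :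
    deg S w = S.degree w := by
  unfold deg
  rw [Set.ncard_eq_toFinset_card', ← SimpleGraph.card_neighborSet_eq_degree, Set.toFinset_card]

lemma sum_deg_tree [Fintype V] (S : SimpleGraph V) (hS : S.IsTree) :
    ∑ w, deg S w + 2 = 2 * Fintype.card V := by
  classical
  have h1 : ∑ w, deg S w = 2 * S.edgeFinset.card := by
    rw [← SimpleGraph.sum_degrees_eq_twice_card_edges]
    exact Finset.sum_congr rfl fun w _ => deg_eq_degree S w
  have h2 := hS.card_edgeFinset
  omega

lemma two_le_leaves [Fintype V] (hV : 2 ≤ Fintype.card V) (S : SimpleGraph V) (hS : S.IsTree) :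
    2 ≤ leaves S := by
  classical
  have hnt : Nontrivial V := Fintype.one_lt_card_iff_nontrivial.mp (by omega)
  have h1 := sum_deg_tree S hS
  have h0 : ∀ w, 1 ≤ deg S w := by
    intro w
    rw [deg_eq_degree]
    exact hS.connected.preconnected.degree_pos_of_nontrivial w
  have h2 : ∑ w : V, 2 ≤ ∑ w, (deg S w + if deg S w = 1 then 1 else 0) := by
    refine Finset.sum_le_sum fun w _ => ?_
    have := h0 w
    split_ifs <;> omega
  rw [Finset.sum_add_distrib, Finset.sum_boole] at h2
  have h3 : leaves S = (Finset.univ.filter fun w => deg S w = 1).card := by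
    unfold leaves
    rw [Set.ncard_eq_toFinset_card']
    congr 1
    ext w
    simp
  simp only [Finset.sum_const, Finset.card_univ, smul_eq_mul, Nat.cast_id] at h2
  omega

lemma pathGraph_isTree_and_deg {n : ℕ} (hn : 2 ≤ n) :
    (pathGraph n).IsTree ∧
      ∀ i : Fin n, deg (pathGraph n) i = if i.val = 0 ∨ i.val + 1 = n then 1 else 2 := by
  classical
  have hdeg : ∀ i : Fin n,
      deg (pathGraph n) i = if i.val = 0 ∨ i.val + 1 = n then 1 else 2 := by
    intro i
    unfold deg
    by_cases h0 : i.val = 0
    · rw [if_pos (Or.inl h0)]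
      rw [Set.ncard_eq_one]
      refine ⟨⟨1, by omega⟩, ?_⟩
      ext j
      simp only [SimpleGraph.mem_neighborSet, pathGraph_adj, Set.mem_singleton_iff, Fin.ext_iff]
      omega
    · by_cases h1 : i.val + 1 = n
      · rw [if_pos (Or.inr h1)]
        rw [Set.ncard_eq_one]
        refine ⟨⟨i.val - 1, by omega⟩, ?_⟩
        ext j
        have := j.2
        simp only [SimpleGraph.mem_neighborSet, pathGraph_adj, Set.mem_singleton_iff, Fin.ext_iff]
        omega
      · rw [if_neg (by tauto)]
        rw [Set.ncard_eq_two]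
        have := i.2
        refine ⟨⟨i.val - 1, by omega⟩, ⟨i.val + 1, by omega⟩, ?_, ?_⟩
        · intro h
          rw [Fin.ext_iff] at h
          simp only at h
          omega
        · ext j
          simp only [SimpleGraph.mem_neighborSet, pathGraph_adj, Set.mem_insert_iff,
            Set.mem_singleton_iff, Fin.ext_iff]
          omega
  refine ⟨?_, hdeg⟩
  have hconn : (pathGraph n).Connected := by
    obtain ⟨m, rfl⟩ : ∃ m, n = m + 1 := ⟨n - 1, by omega⟩
    exact pathGraph_connected m
  rw [isTree_iff_connected_and_card]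
  refine ⟨hconn, ?_⟩
  have h1 : ∑ w, deg (pathGraph n) w = 2 * (pathGraph n).edgeFinset.card := by
    rw [← SimpleGraph.sum_degrees_eq_twice_card_edges]
    exact Finset.sum_congr rfl fun w _ => deg_eq_degree _ w
  have h2 : ∑ w : Fin n, (deg (pathGraph n) w + if w.val = 0 ∨ w.val + 1 = n then 1 else 0)
      = 2 * n := by
    rw [Finset.sum_congr rfl (g := fun _ => 2)]
    · simp [mul_comm]
    · intro w _
      rw [hdeg]
      split_ifs <;> rfl
  rw [Finset.sum_add_distrib, Finset.sum_boole] at h2
  have h3 : (Finset.univ.filter fun w : Fin n => w.val = 0 ∨ w.val + 1 = n)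
      = {⟨0, by omega⟩, ⟨n - 1, by omega⟩} := by
    ext w
    have := w.2
    simp only [Finset.mem_filter, Finset.mem_univ, true_and, Finset.mem_insert,
      Finset.mem_singleton, Fin.ext_iff]
    omega
  rw [h3, Finset.card_pair (by intro h; rw [Fin.ext_iff] at h; simp only at h; omega)] at h2
  rw [Nat.card_eq_fintype_card, Nat.card_eq_fintype_card, Fintype.card_fin,
    ← SimpleGraph.edgeFinset_card]
  simp only [Nat.cast_ofNat] at h2
  omega

/-- The path tree of an enumeration of the vertices with consecutive vertices adjacent. -/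
lemma exists_path_tree [Fintype V] (G : SimpleGraph V) {n : ℕ} (hn : 2 ≤ n) (f : Fin n → V)
    (hf : Function.Bijective f)
    (hadj : ∀ i j : Fin n, i.val + 1 = j.val → G.Adj (f i) (f j)) :
    ∃ S, IsSpanTree G S ∧
      ∀ i, deg S (f i) = if i.val = 0 ∨ i.val + 1 = n then 1 else 2 := by
  classical
  set e := Equiv.ofBijective f hf with he
  obtain ⟨ht, hd⟩ := pathGraph_isTree_and_deg hn
  refine ⟨(pathGraph n).comap e.symm, ⟨?_, ?_⟩, ?_⟩
  · intro x y hxy
    rw [SimpleGraph.comap_adj, pathGraph_adj] at hxy
    have hx : f (e.symm x) = x := e.apply_symm_apply x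
    have hy : f (e.symm y) = y := e.apply_symm_apply y
    rcases hxy with h | h
    · have := hadj _ _ h
      rwa [hx, hy] at this
    · have := hadj _ _ h
      rw [hx, hy] at this
      exact this.symm
  · exact (SimpleGraph.Iso.comap e.symm (pathGraph n)).isTree_iff.mpr ht
  · intro i
    rw [← hd i]
    unfold deg
    have : ((pathGraph n).comap e.symm).neighborSet (f i) = f '' ((pathGraph n).neighborSet i) := by
      ext y
      simp only [SimpleGraph.mem_neighborSet, SimpleGraph.comap_adj, Set.mem_image]
      have h1 : e.symm (f i) = i := e.symm_apply_apply i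
      rw [h1]
      constructor
      · intro h
        exact ⟨e.symm y, h, e.apply_symm_apply y⟩
      · rintro ⟨j, hj, rfl⟩
        have h2 : e.symm (f j) = j := e.symm_apply_apply j
        rwa [h2]
    rw [this, Set.ncard_image_of_injective _ hf.1]

/-- The number of leaves of such a path tree is 2. -/
lemma leaves_eq_two [Fintype V] (S : SimpleGraph V) {n : ℕ} (hn : 2 ≤ n) (f : Fin n → V)
    (hf : Function.Bijective f)
    (hd : ∀ i, deg S (f i) = if i.val = 0 ∨ i.val + 1 = n then 1 else 2) :
    leaves S = 2 := by
  classical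
  unfold leaves
  have : {w : V | deg S w = 1} = {f ⟨0, by omega⟩, f ⟨n - 1, by omega⟩} := by
    ext w
    obtain ⟨i, rfl⟩ := hf.2 w
    simp only [Set.mem_ofPred_eq, Set.mem_insert_iff, Set.mem_singleton_iff, hf.1.eq_iff,
      Fin.ext_iff, hd]
    have := i.2
    split_ifs with h
    · simp only [true_iff]
      omega
    · simp only [OfNat.ofNat_ne_one, false_iff]
      omega
  rw [this, Set.ncard_pair]
  intro h
  have := hf.1 h
  rw [Fin.ext_iff] at this
  simp only at this
  omega

/-- If `G` is not hamiltonian and has a spanning tree with two leaves then `ml G = 2`. -/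
lemma ml_eq_two [Fintype V] (hV : 2 ≤ Fintype.card V) (G : SimpleGraph V) (hG : ¬ Ham G)
    (hS : ∃ S, IsSpanTree G S ∧ leaves S = 2) : ml G = 2 := by
  unfold ml
  rw [if_neg hG]
  apply le_antisymm
  · exact Nat.sInf_le hS
  · refine le_csInf ⟨2, hS⟩ ?_
    rintro k ⟨S, hS, rfl⟩
    exact two_le_leaves hV S hS.2

lemma isMl_iff [Fintype V] (hV : 2 ≤ Fintype.card V) (G : SimpleGraph V) (hG : ¬ Ham G)
    (hS : ∃ S, IsSpanTree G S ∧ leaves S = 2) (S : SimpleGraph V) :
    IsMl G S ↔ IsSpanTree G S ∧ leaves S = 2 := by
  unfold IsMl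
  rw [ml_eq_two hV G hG hS]
  tauto

end Pool.Agent.R891.FC
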