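import Pool.Agent.R891.FC1

/-!
# Fault cost (MP_54aac5_co): the graph on 36 vertices and its hamiltonicity properties
-/

namespace Pool.Agent.R891.FC

open SimpleGraph

def tbl : List (List ℕ) :=
  [[1,2,18],
   [0,2,4],
   [0,1,5],
   [6,7,21],
   [1,7,8],
   [2,6,9],
   [3,5,10],
   [3,4,11],
   [4,12,14],
   [5,12,15],
   [6,13,14],
   [7,13,16],
   [8,9,13],
   [10,11,12],
   [8,10,17],
   [9,16,17],
   [11,15,17],
   [14,15,16],
   [0,19,20],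
   [18,20,22],
   [18,19,23],
   [3,24,25],
   [19,25,26],
   [20,24,27],
   [21,23,28],
   [21,22,29],
   [22,30,32],
   [23,30,33],
   [24,31,32],
   [25,31,34],
   [26,27,31],
   [28,29,30],
   [26,28,35],
   [27,34,35],
   [29,33,35],
   [32,33,34]]

def L0 : List ℕ :=
  [17,14,8,4,1,0,2,5,6,10,13,12,9,15,16,11,7,3,21,25,29,34,33,27,30,31,28,24,23,20,18,19,22,26,32,35]

def Lv : List (List ℕ) :=
  [[17,14,8,4,1,2,5,6,10,13,12,9,15,16,11,7,3,21,25,29,34,33,27,30,31,28,24,23,20,18,19,22,26,32,35],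
   [17,14,10,6,3,7,4,8,12,13,11,16,15,9,5,2,0,18,19,20,23,27,33,34,29,31,30,26,22,25,21,24,28,32,35],
   [17,15,16,11,7,3,6,5,9,12,13,10,14,8,4,1,0,18,19,20,23,27,33,34,29,31,30,26,22,25,21,24,28,32,35],
   [17,14,8,4,7,11,16,15,9,12,13,10,6,5,2,1,0,18,19,20,23,27,33,34,29,31,30,26,22,25,21,24,28,32,35],
   [17,14,8,12,13,10,6,3,7,11,16,15,9,5,2,1,0,18,19,20,23,27,33,34,29,31,30,26,22,25,21,24,28,32,35],
   [17,14,8,12,9,15,16,11,13,10,6,3,7,4,1,2,0,18,19,20,23,27,33,34,29,31,30,26,22,25,21,24,28,32,35],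
   [17,14,10,13,12,8,4,1,0,2,5,9,15,16,11,7,3,21,25,29,34,33,27,30,31,28,24,23,20,18,19,22,26,32,35],
   [17,14,10,13,11,16,15,9,12,8,4,1,0,2,5,6,3,21,25,29,34,33,27,30,31,28,24,23,20,18,19,22,26,32,35],
   [17,14,10,13,12,9,15,16,11,7,4,1,0,2,5,6,3,21,25,29,34,33,27,30,31,28,24,23,20,18,19,22,26,32,35],
   [17,15,16,11,13,12,8,14,10,6,5,2,0,1,4,7,3,21,25,29,34,33,27,30,31,28,24,23,20,18,19,22,26,32,35],
   [17,14,8,12,13,11,16,15,9,5,6,3,7,4,1,2,0,18,19,20,23,27,33,34,29,31,30,26,22,25,21,24,28,32,35],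
   [17,16,15,9,12,13,10,14,8,4,7,3,6,5,2,1,0,18,19,20,23,27,33,34,29,31,30,26,22,25,21,24,28,32,35],
   [17,14,8,4,7,3,6,10,13,11,16,15,9,5,2,1,0,18,19,20,23,27,33,34,29,31,30,26,22,25,21,24,28,32,35],
   [17,14,10,6,5,2,0,1,4,8,12,9,15,16,11,7,3,21,25,29,34,33,27,30,31,28,24,23,20,18,19,22,26,32,35],
   [17,16,15,9,12,8,4,1,0,2,5,6,10,13,11,7,3,21,25,29,34,33,27,30,31,28,24,23,20,18,19,22,26,32,35],
   [17,16,11,7,3,6,5,9,12,13,10,14,8,4,1,2,0,18,19,20,23,27,33,34,29,31,30,26,22,25,21,24,28,32,35],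
   [17,15,9,5,2,0,1,4,7,11,13,12,8,14,10,6,3,21,25,29,34,33,27,30,31,28,24,23,20,18,19,22,26,32,35],
   [35,32,26,22,19,18,20,23,24,28,31,30,27,33,34,29,25,21,3,6,5,2,0,1,4,7,11,13,10,14,8,12,9,15,16],
   [35,32,26,22,19,20,23,24,28,31,30,27,33,34,29,25,21,3,7,11,16,15,9,12,13,10,6,5,2,0,1,4,8,14,17],
   [35,32,28,24,21,25,22,26,30,31,29,34,33,27,23,20,18,0,1,2,5,9,15,16,11,13,12,8,4,7,3,6,10,14,17],
   [35,33,34,29,25,21,24,23,27,30,31,28,32,26,22,19,18,0,1,2,5,9,15,16,11,13,12,8,4,7,3,6,10,14,17],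
   [35,32,26,22,25,29,34,33,27,30,31,28,24,23,20,19,18,0,1,2,5,9,15,16,11,13,12,8,4,7,3,6,10,14,17],
   [35,32,26,30,31,28,24,21,25,29,34,33,27,23,20,19,18,0,1,2,5,9,15,16,11,13,12,8,4,7,3,6,10,14,17],
   [35,32,26,30,27,33,34,29,31,28,24,21,25,22,19,20,18,0,1,2,5,9,15,16,11,13,12,8,4,7,3,6,10,14,17],
   [35,32,28,31,30,26,22,19,18,20,23,27,33,34,29,25,21,3,7,11,16,15,9,12,13,10,6,5,2,0,1,4,8,14,17],
   [35,32,28,31,29,34,33,27,30,26,22,19,18,20,23,24,21,3,7,11,16,15,9,12,13,10,6,5,2,0,1,4,8,14,17],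
   [35,32,28,31,30,27,33,34,29,25,22,19,18,20,23,24,21,3,7,11,16,15,9,12,13,10,6,5,2,0,1,4,8,14,17],
   [35,33,34,29,31,30,26,32,28,24,23,20,18,19,22,25,21,3,7,11,16,15,9,12,13,10,6,5,2,0,1,4,8,14,17],
   [35,32,26,30,31,29,34,33,27,23,24,21,25,22,19,20,18,0,1,2,5,9,15,16,11,13,12,8,4,7,3,6,10,14,17],
   [35,34,33,27,30,31,28,32,26,22,25,21,24,23,20,19,18,0,1,2,5,9,15,16,11,13,12,8,4,7,3,6,10,14,17],
   [35,32,26,22,25,21,24,28,31,29,34,33,27,23,20,19,18,0,1,2,5,9,15,16,11,13,12,8,4,7,3,6,10,14,17],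
   [35,32,28,24,23,20,18,19,22,26,30,27,33,34,29,25,21,3,7,11,16,15,9,12,13,10,6,5,2,0,1,4,8,14,17],
   [35,34,33,27,30,26,22,19,18,20,23,24,28,31,29,25,21,3,7,11,16,15,9,12,13,10,6,5,2,0,1,4,8,14,17],
   [35,34,29,25,21,24,23,27,30,31,28,32,26,22,19,20,18,0,1,2,5,9,15,16,11,13,12,8,4,7,3,6,10,14,17],
   [35,33,27,23,20,18,19,22,25,29,31,30,26,32,28,24,21,3,7,11,16,15,9,12,13,10,6,5,2,0,1,4,8,14,17],
   [17,14,8,4,1,0,2,5,6,10,13,12,9,15,16,11,7,3,21,24,23,20,18,19,22,25,29,31,28,32,26,30,27,33,34]]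

def nbL (i : ℕ) : List ℕ := tbl.getD i []

def adjN (i j : ℕ) : Bool := (nbL i).elem j

/-- The side of a vertex. -/
def side (i : ℕ) : Bool := Nat.ble 18 i

/-- end `a` of the fragment -/
def vA (b : Bool) : ℕ := cond b 21 3
/-- end `b` of the fragment -/
def vB (b : Bool) : ℕ := cond b 18 0

theorem adj_symm : ∀ i j : Fin 36, adjN i j = true → adjN j i = true := by decide +kernel

theorem adj_irrefl : ∀ i : Fin 36, adjN i i = false := by decide +kernel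

/-- The graph. -/
def GG : SimpleGraph (Fin 36) where
  Adj i j := adjN i j = true
  symm := ⟨fun i j h => adj_symm i j h⟩
  loopless := ⟨fun i h => by rw [adj_irrefl i] at h; exact absurd h (by decide)⟩

theorem adj_GG {i j : Fin 36} : GG.Adj i j ↔ adjN i j = true := Iff.rfl

/-- crossing edges -/
theorem cross : ∀ (b : Bool) (i j : Fin 36), adjN i j = true → side i = b → side j ≠ b →
    (i.val = vA b ∧ j.val = vA (!b)) ∨ (i.val = vB b ∧ j.val = vB (!b)) := by decide +kernel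

/-- depth first search for a path in the fragment -/
def search (b : Bool) (fin : ℕ) : ℕ → ℕ → List ℕ → Bool
  | 0, cur, _ => Nat.beq cur fin
  | (k+1), cur, vis => (nbL cur).any fun x =>
      (side x == b) && (!(vis.elem x)) && search b fin k x (x :: vis)

theorem search_false : search false 0 17 3 [3] = false := by decide +kernel
theorem search_true : search true 18 17 21 [21] = false := by decide +kernel

end Pool.Agent.R891.FC
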