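import Pool.Agent.R891.FC2

namespace Pool.Agent.R891.FC

open SimpleGraph

theorem search_sound (b : Bool) (fin : ℕ) : ∀ (t : List ℕ) (cur : ℕ) (vis : List ℕ),
    (cur :: t).IsChain (fun i j => adjN i j = true) → t.Nodup →
    (∀ x ∈ t, side x = b ∧ x ∉ vis) → (cur :: t).getLast (by simp) = fin →
    search b fin t.length cur vis = true := by
  intro t
  induction t with
  | nil =>
    intro cur vis _ _ _ h
    simp only [List.getLast_singleton] at h
    simp [search, h]
  | cons x t ih =>
    intro cur vis hc hn hv hl
    rw [List.isChain_cons_cons] at hc
    rw [List.nodup_cons] at hn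
    simp only [List.length_cons, search]
    rw [List.any_eq_true]
    refine ⟨x, ?_, ?_⟩
    · have := hc.1
      unfold adjN at this
      simpa using this
    · have h1 := hv x (by simp)
      have h2 : search b fin t.length x (x :: vis) = true := by
        refine ih x (x :: vis) hc.2 hn.2 ?_ ?_
        · intro y hy
          have h3 := hv y (by simp [hy])
          refine ⟨h3.1, ?_⟩
          simp only [List.mem_cons, not_or]
          refine ⟨?_, h3.2⟩
          rintro rfl
          exact hn.1 hy
        · rw [← hl]
          simp
      rw [h2]
      simp [h1.1, h1.2]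

theorem no_span (b : Bool) (t : List ℕ) (hlen : t.length = 17)
    (hc : (vA b :: t).IsChain (fun i j => adjN i j = true)) (hn : (vA b :: t).Nodup)
    (hs : ∀ x ∈ t, side x = b) (hl : (vA b :: t).getLast (by simp) = vB b) : False := by
  rw [List.nodup_cons] at hn
  have h := search_sound b (vB b) t (vA b) [vA b] hc hn.2 (by
    intro x hx
    refine ⟨hs x hx, ?_⟩
    simp only [List.mem_singleton]
    rintro rfl
    exact hn.1 hx) hl
  rw [hlen] at h
  cases b with
  | false =>
    change search false 0 17 3 [3] = true at h
    rw [search_false] at h
    exact absurd h (by decide)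
  | true =>
    change search true 18 17 21 [21] = true at h
    rw [search_true] at h
    exact absurd h (by decide)

/-- After leaving a side through its second exit one never returns. -/
theorem never_return (b : Bool) : ∀ (r : List (Fin 36)) (z : Fin 36),
    (z :: r).IsChain (fun i j : Fin 36 => adjN i j = true) → side z ≠ b →
    (∀ x ∈ r, x.val ≠ vA b ∧ x.val ≠ vB b) → ∀ x ∈ r, side x ≠ b := by
  intro r
  induction r with
  | nil => intro z _ _ _ x hx; simp at hx
  | cons y r ih =>
    intro z hc hz hr x hx
    rw [List.isChain_cons_cons] at hc
    have hy : side y ≠ b := by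
      intro hy
      have h1 := cross b y z (adj_symm _ _ hc.1) hy hz
      have h2 := hr y (by simp)
      tauto
    rw [List.mem_cons] at hx
    rcases hx with rfl | hx
    · exact hy
    · exact ih y hc.2 hy (fun x hx => hr x (by simp [hx])) x hx

theorem side_card (b : Bool) : ((Finset.univ : Finset (Fin 36)).filter fun i : Fin 36 => side i.val = b).card = 18 := by
  cases b <;> decide +kernel

theorem list_no (b : Bool) (a y : Fin 36) (l : List (Fin 36)) (ha : a.val = vA b)
    (hn : (a :: y :: l).Nodup)
    (hc : (a :: y :: l).IsChain (fun i j : Fin 36 => adjN i j = true)) (hy : side y = b)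
    (hall : ∀ i : Fin 36, side i = b → i ∈ a :: y :: l)
    (hex : ∃ i ∈ a :: y :: l, side i ≠ b) : False := by
  have hsa : side a = b := by rw [ha]; cases b <;> rfl
  set p : Fin 36 → Bool := fun i => side i == b with hp
  set L := a :: y :: l with hL
  have hLt : L = L.takeWhile p ++ L.dropWhile p := (List.takeWhile_append_dropWhile).symm
  set t := L.takeWhile p with ht
  set r := L.dropWhile p with hr
  have hts : ∀ x ∈ t, side x = b := by
    intro x hx
    have := List.mem_takeWhile_imp hx
    simpa [hp] using this
  have htform : t = a :: y :: l.takeWhile p := by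
    rw [ht, hL, List.takeWhile_cons, if_pos (by simp [hp, hsa]), List.takeWhile_cons,
      if_pos (by simp [hp, hy])]
  -- r is nonempty
  have hrne : r ≠ [] := by
    intro hr0
    obtain ⟨i, hi, hib⟩ := hex
    rw [hLt, hr0, List.append_nil] at hi
    exact hib (hts i hi)
  obtain ⟨z, r', hzr⟩ := List.exists_cons_of_ne_nil hrne
  have hz : side z ≠ b := by
    have := List.head_dropWhile_not (p := p) (l := L) (by rw [← hr]; exact hrne)
    simp only [← hr, hzr, List.head_cons] at this
    simpa [hp] using this
  have htne : t ≠ [] := by rw [htform]; simp
  have hch := hc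
  rw [hLt, hzr] at hch
  rw [List.isChain_append] at hch
  obtain ⟨hct, hcr, hlink⟩ := hch
  have hnd := hn
  rw [hLt, List.nodup_append] at hnd
  obtain ⟨hndt, hndr, hdis⟩ := hnd
  set e := t.getLast htne with he
  have heb : side e = b := hts e (List.getLast_mem htne)
  have hez : adjN e z = true := hlink e (by simp [he, List.getLast?_eq_getLast_of_ne_nil htne]) z (by simp)
  have hea : e ≠ a := by
    intro h
    have h1 : e ∈ y :: l.takeWhile p := by
      have : e = (y :: l.takeWhile p).getLast (by simp) := by
        rw [he]
        simp only [htform]
        rw [List.getLast_cons]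
      rw [this]
      exact List.getLast_mem _
    rw [htform, List.nodup_cons] at hndt
    rw [h] at h1
    exact hndt.1 h1
  have heB : e.val = vB b := by
    rcases cross b e z hez heb hz with h | h
    · exfalso
      apply hea
      apply Fin.ext
      rw [h.1, ha]
    · exact h.1
  -- no return
  have hnr : ∀ x ∈ r, side x ≠ b := by
    intro x hx
    rw [hzr, List.mem_cons] at hx
    rcases hx with rfl | hx
    · exact hz
    · refine never_return b r' z hcr hz ?_ x hx
      intro x hx
      constructor
      · intro h
        have : x = a := Fin.ext (by rw [h, ha])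
        subst this
        exact hdis x (by rw [htform]; simp) x (by rw [hzr]; simp [hx]) rfl
      · intro h
        have : x = e := Fin.ext (by rw [h, heB])
        exact hdis e (List.getLast_mem htne) x (by rw [hzr]; simp [hx]) this.symm
  have hlen : t.length = 18 := by
    rw [← List.toFinset_card_of_nodup hndt, ← side_card b]
    congr 1
    ext i
    simp only [List.mem_toFinset, Finset.mem_filter, Finset.mem_univ, true_and]
    constructor
    · exact hts i
    · intro hi
      have := hall i hi
      rw [hLt, List.mem_append] at this
      rcases this with h | h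
      · exact h
      · exact absurd hi (hnr i h)
  -- pass to ℕ
  refine no_span b ((y :: l.takeWhile p).map Fin.val) ?_ ?_ ?_ ?_ ?_
  · rw [htform] at hlen
    simpa using hlen
  · have : vA b :: (y :: l.takeWhile p).map Fin.val = t.map Fin.val := by
      rw [htform]
      simp [ha]
    rw [this, List.isChain_map]
    exact hct
  · have : vA b :: (y :: l.takeWhile p).map Fin.val = t.map Fin.val := by
      rw [htform]
      simp [ha]
    rw [this]
    exact hndt.map Fin.val_injective
  · intro x hx
    rw [List.mem_map] at hx
    obtain ⟨i, hi, rfl⟩ := hx
    apply hts i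
    rw [htform]
    exact List.mem_cons_of_mem _ hi
  · have h1 : vA b :: (y :: l.takeWhile p).map Fin.val = t.map Fin.val := by
      rw [htform]
      simp [ha]
    rw [List.getLast_congr _ (by simpa using htne) h1, List.getLast_map, ← heB]

theorem no_ham (V : Type) [Finite V] (S : SimpleGraph V) (hconn : S.Connected)
    (hdeg : ∀ w, deg S w = 2) (g : V → Fin 36) (ginj : Function.Injective g)
    (hadj : ∀ x y, S.Adj x y → adjN (g x) (g y) = true) (b : Bool)
    (hall : ∀ i : Fin 36, side i = b → ∃ x, g x = i) (hex : ∃ x, side (g x) ≠ b) : False := by
  classical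
  obtain ⟨x0, hx0⟩ := hall (if b then 21 else 3) (by cases b <;> rfl)
  have hx0' : (g x0).val = vA b := by rw [hx0]; cases b <;> rfl
  have hcyc : S.IsCycles := fun v _ => hdeg v
  have hne : (S.neighborSet x0).Nonempty := by
    rw [← Set.ncard_pos (Set.toFinite _)]
    have := hdeg x0
    unfold deg at this
    omega
  obtain ⟨p, hp, hpv⟩ := hcyc.exists_cycle_toSubgraph_verts_eq_connectedComponentSupp
    (c := S.connectedComponentMk x0) (v := x0) rfl hne
  have hmem : ∀ w, w ∈ p.support := by
    intro w
    rw [← Walk.mem_verts_toSubgraph, hpv]
    simp only [ConnectedComponent.mem_supp_iff, ConnectedComponent.eq]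
    exact hconn.preconnected w x0
  have hside0 : side (g x0) = b := by rw [hx0']; cases b <;> rfl
  -- main argument for a cycle whose second vertex is on side b
  have main : ∀ p : S.Walk x0 x0, p.IsCycle → (∀ w, w ∈ p.support) → side (g p.snd) = b →
      False := by
    intro p hp hmem hs
    have hpath := hp.isPath_dropLast
    have hnn : ¬ p.Nil := hp.not_nil
    have hsup : p.dropLast.support = p.support.dropLast := Walk.support_dropLast hnn
    have hnd : p.support.dropLast.Nodup := hsup ▸ hpath.support_nodup
    have hch : p.support.IsChain S.Adj := p.isChain_adj_support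
    have hform : ∃ l, p.support.dropLast = x0 :: p.snd :: l := by
      clear hnd hch hsup hpath hmem hs
      cases p with
      | nil => exact absurd Walk.Nil.nil hnn
      | cons h q =>
        cases q with
        | nil => exact absurd h (S.loopless.irrefl _)
        | cons h' q' =>
          refine ⟨q'.support.dropLast, ?_⟩
          rw [Walk.support_cons, Walk.support_cons, Walk.snd_cons,
            List.dropLast_cons_of_ne_nil (by simp),
            List.dropLast_cons_of_ne_nil (by simp)]
    obtain ⟨l, hl⟩ := hform
    have hmem' : ∀ w, w ∈ p.support.dropLast := by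
      intro w
      have h1 := hmem w
      rw [← List.dropLast_append_getLast (Walk.support_ne_nil p), List.mem_append] at h1
      rcases h1 with h1 | h1
      · exact h1
      · rw [List.mem_singleton, Walk.getLast_support] at h1
        rw [h1, hl]
        simp
    have hch' : (p.support.dropLast).IsChain S.Adj := hch.dropLast
    rw [hl] at hnd hmem' hch'
    refine list_no b (g x0) (g p.snd) (l.map g) hx0' ?_ ?_ hs ?_ ?_
    · exact hnd.map ginj
    · have h3 : ((x0 :: p.snd :: l).map g).IsChain (fun i j : Fin 36 => adjN i j = true) := by
        rw [List.isChain_map]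
        exact hch'.imp fun x y h => hadj x y h
      exact h3
    · intro i hi
      obtain ⟨x, rfl⟩ := hall i hi
      have : g x ∈ (x0 :: p.snd :: l).map g := List.mem_map_of_mem (hmem' x)
      exact this
    · obtain ⟨x, hx⟩ := hex
      have : g x ∈ (x0 :: p.snd :: l).map g := List.mem_map_of_mem (hmem' x)
      exact ⟨g x, this, hx⟩
  by_cases hs : side (g p.snd) = b
  · exact main p hp hmem hs
  · refine main p.reverse hp.reverse (by intro w; rw [Walk.support_reverse, List.mem_reverse]; exact hmem w) ?_
    rw [Walk.snd_reverse]
    by_contra hs'
    have hnn : ¬ p.Nil := hp.not_nil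
    have h1 : S.Adj x0 p.snd := p.adj_snd hnn
    have h2 : S.Adj x0 p.penultimate := (p.adj_penultimate hnn).symm
    have hAB : vA b ≠ vB b := by cases b <;> decide
    have c1 := cross b _ _ (hadj _ _ h1) hside0 hs
    have c2 := cross b _ _ (hadj _ _ h2) hside0 hs'
    rw [hx0'] at c1 c2
    have c1' : (g p.snd).val = vA (!b) := by tauto
    have c2' : (g p.penultimate).val = vA (!b) := by tauto
    apply hp.snd_ne_penultimate
    apply ginj
    apply Fin.ext
    rw [c1', c2']

end Pool.Agent.R891.FC
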