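import Pool.Agent.R891.FC3

namespace Pool.Agent.R891.FC

open SimpleGraph

def LL (v : ℕ) : List ℕ := Lv.getD v []

def chainB : List ℕ → Bool
  | [] => true
  | [_] => true
  | x :: y :: l => adjN x y && chainB (y :: l)

theorem chainB_sound : ∀ l, chainB l = true → l.IsChain (fun i j => adjN i j = true)
  | [], _ => List.IsChain.nil
  | [x], _ => List.IsChain.singleton x
  | x :: y :: l, h => by
    rw [chainB, Bool.and_eq_true] at h
    rw [List.isChain_cons_cons]
    exact ⟨h.1, chainB_sound (y :: l) h.2⟩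

theorem data_L0 : L0.length = 36 ∧ (∀ x ∈ L0, x < 36) ∧ L0.Nodup ∧ chainB L0 = true ∧
    L0.getD 0 0 = 17 ∧ L0.getD 35 0 = 35 := by decide +kernel

theorem data_LL : ∀ v : Fin 36, (LL v).length = 35 ∧ (∀ x ∈ LL v, x < 36 ∧ x ≠ v.val) ∧
    (LL v).Nodup ∧ chainB (LL v) = true := by decide +kernel

theorem data_end : ∀ v w : Fin 36,
    (if w.val = 17 ∨ w.val = 35 then 1 else 2) ≠
      (if w.val = (LL v).getD 0 0 ∨ w.val = (LL v).getD 34 0 then 1 else 2) → w ≠ v →
    w.val = (if v.val = 17 then 16 else 34) := by decide +kernel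

theorem data_side : ∀ v : Fin 36, ∃ x : Fin 36, x ≠ v ∧ side x = side v := by decide +kernel

theorem data_deg : ∀ v : Fin 36,
    ((Finset.univ : Finset (Fin 36)).filter fun w : Fin 36 => adjN v.val w.val = true).card = 3 := by
  decide +kernel

theorem deg_GG (v : Fin 36) : deg GG v = 3 := by
  unfold deg
  rw [← data_deg v, ← Set.ncard_coe_finset]
  congr 1
  ext w
  simp [adj_GG]

theorem not_ham : ¬ Ham GG := by
  rintro ⟨S, hS, hc, hd⟩
  exact no_ham (Fin 36) S hc hd id Function.injective_id (fun x y h => hS h) false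
    (fun i _ => ⟨i, rfl⟩) ⟨18, by decide⟩

theorem not_ham_del (v : Fin 36) : ¬ Ham (del GG v) := by
  rintro ⟨S, hS, hc, hd⟩
  refine no_ham _ S hc hd Subtype.val Subtype.val_injective (fun x y h => hS h) (!(side v)) ?_ ?_
  · intro i hi
    refine ⟨⟨i, ?_⟩, rfl⟩
    rintro rfl
    cases h : side i.val <;> simp [h] at hi
  · obtain ⟨x, hx, hs⟩ := data_side v
    refine ⟨⟨x, hx⟩, ?_⟩
    change side x ≠ _
    rw [hs]
    cases side v.val <;> decide

theorem exists_S : ∃ S, IsSpanTree GG S ∧ leaves S = 2 ∧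
    ∀ w : Fin 36, deg S w = if w.val = 17 ∨ w.val = 35 then 1 else 2 := by
  obtain ⟨hlen, hlt, hnd, hch, h0, h1⟩ := data_L0
  have hch := chainB_sound _ hch
  have hlt' : ∀ i : Fin 36, L0[i.val]'(by rw [hlen]; exact i.2) < 36 := fun i =>
    hlt _ (List.getElem_mem _)
  let f : Fin 36 → Fin 36 := fun i => ⟨L0[i.val]'(by rw [hlen]; exact i.2), hlt' i⟩
  have hf : Function.Injective f := by
    intro i j hij
    have := congrArg Fin.val hij
    simp only [f] at this
    exact Fin.ext ((hnd.getElem_inj_iff).mp this)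
  have hfb : Function.Bijective f := Finite.injective_iff_bijective.mp hf
  obtain ⟨S, hS, hd⟩ := exists_path_tree GG (n := 36) (by norm_num) f hfb (by
    intro i j hij
    have := List.isChain_iff_getElem.mp hch i.val (by rw [hlen, hij]; exact j.2)
    rw [adj_GG]
    simp only [f]
    simp only [hij] at this
    exact this)
  refine ⟨S, hS, leaves_eq_two S (by norm_num) f hfb hd, ?_⟩
  intro w
  obtain ⟨i, rfl⟩ := hfb.2 w
  rw [hd]
  have e0 : (f 0).val = 17 := by
    refine Eq.trans ?_ h0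
    rw [List.getD_eq_getElem _ _ (by rw [hlen]; norm_num)]
    rfl
  have e1 : (f 35).val = 35 := by
    refine Eq.trans ?_ h1
    rw [List.getD_eq_getElem _ _ (by rw [hlen]; norm_num)]
    rfl
  have k0 : (f i).val = 17 ↔ i.val = 0 := by
    rw [← e0, ← Fin.ext_iff, hf.eq_iff, Fin.ext_iff]
    rfl
  have k1 : (f i).val = 35 ↔ i.val + 1 = 36 := by
    rw [← e1, ← Fin.ext_iff, hf.eq_iff, Fin.ext_iff]
    change i.val = 35 ↔ _
    omega
  simp only [k0, k1]

theorem exists_T (v : Fin 36) : ∃ T, IsSpanTree (del GG v) T ∧ leaves T = 2 ∧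
    ∀ w : {w : Fin 36 // w ≠ v}, deg T w =
      if w.1.val = (LL v).getD 0 0 ∨ w.1.val = (LL v).getD 34 0 then 1 else 2 := by
  obtain ⟨hlen, hlt, hnd, hch⟩ := data_LL v
  have hch := chainB_sound _ hch
  have hlt' : ∀ i : Fin 35, (LL v)[i.val]'(by rw [hlen]; exact i.2) < 36 ∧
      (LL v)[i.val]'(by rw [hlen]; exact i.2) ≠ v.val := fun i =>
    hlt _ (List.getElem_mem _)
  let f : Fin 35 → {w : Fin 36 // w ≠ v} := fun i =>
    ⟨⟨(LL v)[i.val]'(by rw [hlen]; exact i.2), (hlt' i).1⟩, fun h => (hlt' i).2 (congrArg Fin.val h)⟩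
  have hf : Function.Injective f := by
    intro i j hij
    have := congrArg (fun w => w.1.val) hij
    simp only [f] at this
    exact Fin.ext ((hnd.getElem_inj_iff).mp this)
  have hfb : Function.Bijective f := by
    rw [Fintype.bijective_iff_injective_and_card]
    refine ⟨hf, ?_⟩
    rw [Fintype.card_fin, Fintype.card_subtype_compl, Fintype.card_fin, Fintype.card_subtype_eq]
  obtain ⟨T, hT, hd⟩ := exists_path_tree (del GG v) (n := 35) (by norm_num) f hfb (by
    intro i j hij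
    have := List.isChain_iff_getElem.mp hch i.val (by rw [hlen, hij]; exact j.2)
    change adjN _ _ = true
    simp only [f]
    simp only [hij] at this
    exact this)
  refine ⟨T, hT, leaves_eq_two T (by norm_num) f hfb hd, ?_⟩
  intro w
  obtain ⟨i, rfl⟩ := hfb.2 w
  rw [hd]
  have k0 : (f i).1.val = (LL v).getD 0 0 ↔ i.val = 0 := by
    rw [List.getD_eq_getElem _ _ (by rw [hlen]; norm_num)]
    exact hnd.getElem_inj_iff
  have k1 : (f i).1.val = (LL v).getD 34 0 ↔ i.val + 1 = 35 := by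
    rw [List.getD_eq_getElem _ _ (by rw [hlen]; norm_num)]
    change (LL v)[i.val]'_ = _ ↔ _
    rw [hnd.getElem_inj_iff]
    omega
  simp only [k0, k1]

theorem isMl_GG (S : SimpleGraph (Fin 36)) : IsMl GG S ↔ IsSpanTree GG S ∧ leaves S = 2 := by
  obtain ⟨S0, h1, h2, _⟩ := exists_S
  exact isMl_iff (by simp) GG not_ham ⟨S0, h1, h2⟩ S

theorem isMl_del (v : Fin 36) (T : SimpleGraph {w : Fin 36 // w ≠ v}) :
    IsMl (del GG v) T ↔ IsSpanTree (del GG v) T ∧ leaves T = 2 := by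
  obtain ⟨T0, h1, h2, _⟩ := exists_T v
  refine isMl_iff ?_ (del GG v) (not_ham_del v) ⟨T0, h1, h2⟩ T
  rw [Fintype.card_subtype_compl, Fintype.card_fin, Fintype.card_subtype_eq]
  norm_num

theorem phi_le : phi GG ≤ 1 := by
  classical
  obtain ⟨S, h1, h2, hS⟩ := exists_S
  have hle : phi GG ≤ phiS GG S := Nat.sInf_le ⟨S, (isMl_GG S).mpr ⟨h1, h2⟩, rfl⟩
  refine hle.trans ?_
  unfold phiS
  refine Finset.sup_le fun v _ => ?_
  obtain ⟨T, t1, t2, hT⟩ := exists_T v
  have hle2 : sInf {k | ∃ T, IsMl (del GG v) T ∧ tau S v T = k} ≤ tau S v T :=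
    Nat.sInf_le ⟨T, (isMl_del v T).mpr ⟨t1, t2⟩, rfl⟩
  refine hle2.trans ?_
  unfold tau
  rw [Set.ncard_le_one_iff]
  intro a b ha hb
  simp only [Set.mem_ofPred_eq, hS, hT] at ha hb
  have ha' := data_end v a.1 ha a.2
  have hb' := data_end v b.1 hb b.2
  exact Subtype.ext (Fin.ext (ha'.trans hb'.symm))

theorem le_phi : 1 ≤ phi GG := by
  classical
  obtain ⟨S0, h1, h2, _⟩ := exists_S
  refine le_csInf ⟨_, S0, (isMl_GG S0).mpr ⟨h1, h2⟩, rfl⟩ ?_
  rintro k ⟨S, hS, rfl⟩
  obtain ⟨-, hlS⟩ := (isMl_GG S).mp hS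
  unfold leaves at hlS
  obtain ⟨x, v, hxv, hset⟩ := Set.ncard_eq_two.mp hlS
  have hdS : ∀ w, deg S w = 1 → w = x ∨ w = v := by
    intro w hw
    have : w ∈ {w | deg S w = 1} := hw
    rw [hset] at this
    simpa using this
  obtain ⟨T0, t1, t2, _⟩ := exists_T v
  have hmain : 1 ≤ sInf {k | ∃ T, IsMl (del GG v) T ∧ tau S v T = k} := by
    refine le_csInf ⟨_, T0, (isMl_del v T0).mpr ⟨t1, t2⟩, rfl⟩ ?_
    rintro k ⟨T, hT, rfl⟩
    obtain ⟨-, hlT⟩ := (isMl_del v T).mp hT
    unfold leaves at hlT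
    obtain ⟨y1, y2, hy, hsetT⟩ := Set.ncard_eq_two.mp hlT
    have hy1 : deg T y1 = 1 := by
      have : y1 ∈ {w | deg T w = 1} := by rw [hsetT]; simp
      exact this
    have hy2 : deg T y2 = 1 := by
      have : y2 ∈ {w | deg T w = 1} := by rw [hsetT]; simp
      exact this
    have hex : ∃ y, deg T y = 1 ∧ y.1 ≠ x := by
      by_cases h : y1.1 = x
      · refine ⟨y2, hy2, fun h' => hy (Subtype.ext (h.trans h'.symm))⟩
      · exact ⟨y1, hy1, h⟩
    obtain ⟨y, hyT, hyx⟩ := hex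
    unfold tau
    rw [Nat.one_le_iff_ne_zero, ← Nat.pos_iff_ne_zero, Set.ncard_pos (Set.toFinite _)]
    refine ⟨y, ?_⟩
    change deg S y.1 ≠ deg T y
    rw [hyT]
    intro h
    rcases hdS _ h with h | h
    · exact hyx h
    · exact y.2 h
  unfold phiS
  exact hmain.trans (Finset.le_sup (f := fun v : Fin 36 =>
    sInf {k | ∃ T, IsMl (del GG v) T ∧ tau S v T = k}) (Finset.mem_univ v))

theorem phi_GG : phi GG = 1 := le_antisymm phi_le le_phi

theorem conn_GG : GG.Connected := by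
  obtain ⟨S, h1, _⟩ := exists_S
  exact h1.2.connected.mono h1.1

theorem conn_del (v : Fin 36) : (del GG v).Connected := by
  obtain ⟨T, h1, _⟩ := exists_T v
  exact h1.2.connected.mono h1.1

end Pool.Agent.R891.FC
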